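import Mathlib
import Pool.Agent.W943.Few.F12

/-!
# Limits of arbitrary functions of few outputs of a branching program
-/

set_option autoImplicit false

open MvPolynomial

namespace Pool.Agent.Results.MP_9ce8c8_lc.BorderFewOutputs

universe u

/-- Let `k` be a field of characteristic zero, `K = k(ε)` (`RatFunc k`), `δ ≥ 1` and `m ≥ 210000 δ`.
Let `A` be an invertible `N × N` matrix and `b` a vector of polynomials over `K` of degree at most
`δ` in the entries of the generic `m × m` matrix, and let `x` be the solution of `A x = b` over the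
rational functions (for example: the polynomials computed at the `N` nodes of a branching program
over `K`). Let `F` be a polynomial over `K` of degree at most `2 ^ t m` which is algebraic over the
field generated over `K` by the coordinates `x_l`, `l ∈ T`, where `(5440 + 544 t) |T| ≤ m ^ 2` (for
example: the result of any computation, of unbounded size, whose inputs are the `x_l`, `l ∈ T`). If
all coefficients of `F` are defined at `ε = 0` and the image of `F` under `ε ↦ 0` is the `m × m`
permanent, then `m ^ 3 ≤ 57120000 δ N`. -/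
theorem result (k : Type u) [Field k] [CharZero k] (m N δ t : ℕ) (hδ : 1 ≤ δ)
    (hm : 210000 * δ ≤ m)
    (A : Matrix (Fin N) (Fin N) (MvPolynomial (Fin m × Fin m) (RatFunc k)))
    (b : Fin N → MvPolynomial (Fin m × Fin m) (RatFunc k))
    (hA : ∀ i j, (A i j).totalDegree ≤ δ) (hb : ∀ i, (b i).totalDegree ≤ δ)
    (hdet : A.det ≠ 0)
    (x : Fin N → FractionRing (MvPolynomial (Fin m × Fin m) (RatFunc k)))
    (hx : (A.map (algebraMap (MvPolynomial (Fin m × Fin m) (RatFunc k))
        (FractionRing (MvPolynomial (Fin m × Fin m) (RatFunc k))))).mulVec x =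
      fun i => algebraMap (MvPolynomial (Fin m × Fin m) (RatFunc k))
        (FractionRing (MvPolynomial (Fin m × Fin m) (RatFunc k))) (b i))
    (T : Finset (Fin N)) (hT : (5440 + 544 * t) * T.card ≤ m ^ 2)
    (F : MvPolynomial (Fin m × Fin m) (RatFunc k)) (hdeg : F.totalDegree ≤ 2 ^ t * m)
    (halg : IsAlgebraic (IntermediateField.adjoin (RatFunc k) (x '' (T : Set (Fin N))))
      (algebraMap (MvPolynomial (Fin m × Fin m) (RatFunc k))
        (FractionRing (MvPolynomial (Fin m × Fin m) (RatFunc k))) F))
    (hlim : ∀ d : Fin m × Fin m →₀ ℕ, (F.coeff d).denom.eval 0 ≠ 0 ∧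
      RatFunc.eval (RingHom.id k) 0 (F.coeff d) =
        (Matrix.of fun i j : Fin m =>
          (X (i, j) : MvPolynomial (Fin m × Fin m) k)).permanent.coeff d) :
    m ^ 3 ≤ 57120000 * (δ * N) := by
  have : CharZero (RatFunc k) :=
    charZero_of_injective_algebraMap (algebraMap k (RatFunc k)).injective
  obtain ⟨p₀, hp₀, pj, hrel⟩ := Pool.Agent.W943.Few.exists_mult A b x (fun i => congrFun hx i) T
    F halg
  exact Pool.Agent.W943.Few.perm_coreB k m N δ t hδ hm A b hA hb hdet T hT F hdeg hlim p₀ hp₀ pj
    hrel

end Pool.Agent.Results.MP_9ce8c8_lc.BorderFewOutputs
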