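import Pool.Agent.W944.V2Entropy

/-!
# The entropy of the products of a circuit for the permanent

A computation has free linear combinations, and all polynomials of degree at most `δ` are free.
Every product `a s * b s` has formal degrees `p s` and `q s` of its two factors, measured in units
of `δ`: the factor `a s` uses only products of formal degree at most `p s`, the factor `b s` uses
only products of formal degree at most `q s`, and the product has the formal degree `p s + q s`.
So for `δ = 1` these are the usual formal degrees of a circuit, and they are the degrees if the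
circuit is homogeneous.

If all formal degrees are at most `M`, and the computation computes the `m × m` permanent, exactly
or as a limit (border complexity), then

`m ^ 3 * log M ≤ 13400000 * δ * M * ∑ s, H (p s / (p s + q s))`

where `H (x) = - x log x - (1 - x) log (1 - x)` is the entropy function.
-/

set_option autoImplicit false

open MvPolynomial

namespace Pool.Agent.Results.MP_9ce8c8_lc.EntropyOfProducts

/-- The sums of a polynomial of total degree at most `δ` and a linear combination, over the field
`K`, of the products `a j * b j` with `j ∈ J`. -/
noncomputable def Available {K σ : Type*} [Field K] {n : ℕ} (δ : ℕ)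
    (a b : Fin n → MvPolynomial σ K) (J : Set (Fin n)) : Submodule K (MvPolynomial σ K) :=
  restrictTotalDegree σ K δ ⊔ Submodule.span K ((fun j => a j * b j) '' J)

/-- `a 0 * b 0, …, a (n - 1) * b (n - 1)` are the products of a computation of `F`, and `p s`,
`q s` are formal degrees of the two factors of the product `s`, in units of `δ`: they are
positive, the factor `a s` is a sum of a polynomial of degree at most `δ` and a linear combination
of earlier products `j` of formal degree `p j + q j ≤ p s`, and the factor `b s` is a sum of a
polynomial of degree at most `δ` and a linear combination of earlier products `j` of formal degree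
`p j + q j ≤ q s`. -/
structure Computes {K σ : Type*} [Field K] {n : ℕ} (δ : ℕ) (p q : Fin n → ℕ)
    (a b : Fin n → MvPolynomial σ K) (F : MvPolynomial σ K) : Prop where
  left_pos : ∀ s, 1 ≤ p s
  right_pos : ∀ s, 1 ≤ q s
  left : ∀ s, a s ∈ Available δ a b {j | j < s ∧ p j + q j ≤ p s}
  right : ∀ s, b s ∈ Available δ a b {j | j < s ∧ p j + q j ≤ q s}
  out : F ∈ Available δ a b Set.univ

/-- All coefficients of `F` are defined at `ε = 0` and `F_{ε=0} = f`. -/
def SpecializesTo {K σ : Type*} [Field K] (F : MvPolynomial σ (RatFunc K))
    (f : MvPolynomial σ K) : Prop :=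
  ∀ d, (coeff d F).denom.eval 0 ≠ 0 ∧ (coeff d F).eval (RingHom.id K) 0 = coeff d f

/-- The permanent of the `m × m` matrix of variables. -/
noncomputable def per (K : Type*) [Field K] (m : ℕ) : MvPolynomial (Fin m × Fin m) K :=
  (Matrix.of fun i j : Fin m => (X (i, j) : MvPolynomial (Fin m × Fin m) K)).permanent

/-- The total entropy of the products: the product `s` contributes
`- x log x - (1 - x) log (1 - x)` with `x = p s / (p s + q s)`. -/
noncomputable def entropy {n : ℕ} (p q : Fin n → ℕ) : ℝ :=
  ∑ s, Real.binEntropy ((p s : ℝ) / (p s + q s))

/-- **The entropy of the products of a circuit for the permanent.**  `K` is a field of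
characteristic zero, `m ≥ 55000`, `1 ≤ δ ≤ m / 17000` and `M ≥ m / δ`.  If a computation over `K`,
all of whose formal degrees are at most `M` (in units of `δ`), computes the `m × m` permanent, or
such a computation over `K(ε)` computes a polynomial that is defined at `ε = 0` and specializes to
the permanent, then `m ^ 3 * log M ≤ 13400000 * δ * M * (total entropy of the products)`. -/
theorem result {K : Type*} [Field K] [CharZero K] (m n δ M : ℕ) (hm : 55000 ≤ m) (hδ : 1 ≤ δ)
    (hδm : 17000 * δ ≤ m) (hM : m ≤ δ * M) (p q : Fin n → ℕ) (hpq : ∀ s, p s + q s ≤ M) :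
    (∀ a b : Fin n → MvPolynomial (Fin m × Fin m) K, Computes δ p q a b (per K m) →
      (m : ℝ) ^ 3 * Real.log M ≤ 13400000 * δ * M * entropy p q) ∧
    (∀ (a b : Fin n → MvPolynomial (Fin m × Fin m) (RatFunc K))
      (F : MvPolynomial (Fin m × Fin m) (RatFunc K)), SpecializesTo F (per K m) →
      Computes δ p q a b F →
      (m : ℝ) ^ 3 * Real.log M ≤ 13400000 * δ * M * entropy p q) := by
  classical
  have key : ∀ (a b : Fin n → MvPolynomial (Fin m × Fin m) (RatFunc K))
      (F : MvPolynomial (Fin m × Fin m) (RatFunc K)), SpecializesTo F (per K m) →
      Computes δ p q a b F →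
      (m : ℝ) ^ 3 * Real.log M ≤ 13400000 * δ * M * entropy p q := fun a b F hF h =>
    Pool.Agent.W944.V2.ent_perm K m hm δ M hδ hδm hM p q h.left_pos h.right_pos hpq a b
      h.left h.right F h.out hF
  refine ⟨?_, key⟩
  intro a b h
  set ρ : K →+* RatFunc K := RatFunc.C with hρ
  have hmap : ∀ (J : Set (Fin n)) (x : MvPolynomial (Fin m × Fin m) K),
      x ∈ Available δ a b J →
      map ρ x ∈ Available δ (fun t => map ρ (a t)) (fun t => map ρ (b t)) J := by
    intro J x hx
    unfold Available at hx ⊢
    rw [Submodule.mem_sup] at hx
    obtain ⟨y, hy, z, hz, rfl⟩ := hx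
    rw [map_add]
    apply Submodule.add_mem
    · apply Submodule.mem_sup_left
      rw [mem_restrictTotalDegree] at hy ⊢
      exact (Pool.Agent.H632R2.Border.totalDegree_map_le _ _).trans hy
    · apply Submodule.mem_sup_right
      induction hz using Submodule.span_induction with
      | mem y hy =>
        obtain ⟨j, hj, rfl⟩ := hy
        apply Submodule.subset_span
        exact ⟨j, hj, by simp only [map_mul]⟩
      | zero => rw [map_zero]; exact Submodule.zero_mem _
      | add y z _ _ hy hz => rw [map_add]; exact Submodule.add_mem _ hy hz
      | smul c y _ hy =>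
        rw [smul_eq_C_mul, map_mul, map_C, ← smul_eq_C_mul]
        exact Submodule.smul_mem _ _ hy
  exact key (fun t => map ρ (a t)) (fun t => map ρ (b t)) (map ρ (per K m)) (by
      intro d
      rw [coeff_map]
      constructor
      · rw [hρ, RatFunc.denom_C]; simp
      · rw [hρ, RatFunc.eval_C]; rfl)
    ⟨h.left_pos, h.right_pos, fun s => hmap _ _ (h.left s), fun s => hmap _ _ (h.right s),
      hmap _ _ h.out⟩

end Pool.Agent.Results.MP_9ce8c8_lc.EntropyOfProducts
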