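import Pool.Agent.W942.CompCor

/-!
# The permanent as a sum of arbitrary polynomial functions of determinants

`RowLineDet R p` (file `Pool/Agent/W942/FinalR.lean`): `p` is the determinant of a square matrix of
polynomials, of any order, at most `R` lines of which are not constant, where the entries of every
line involve the variables of a single row of the `n × n` matrix `X` of variables only (entries are
otherwise arbitrary polynomials; many lines may read the same row, in any order).

`DetFunction δ L R p` (file `Pool/Agent/W942/FinalC.lean`): `p = G (q_1, …, q_t)` where `G` is an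
arbitrary polynomial of degree at most `δ` in any number `t` of variables and `q_j` is a
determinant with at most `l_j` lines in this sense, `l_j ≤ L` and `l_1 + … + l_t ≤ R`.

`PolyRepPer ι res P` (file `Pool/Agent/W942/FinalR.lean`): `P` is the image under `ι : O → K` of a
polynomial `q` over `O` which the ring map `res : O → F` turns into the permanent. For `O = K = F`
and identity maps this says that `P` is the permanent; if `O` is the local ring of `F(ε)` at
`ε = 0`, `K = F(ε)` and `res = (ε ↦ 0)`, it is the approximate (border) version.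
-/

set_option autoImplicit false

namespace Pool.Agent.Results.MP_9ce8c8_lc.FunctionsOfDeterminants

open MvPolynomial Pool.Agent.W942.Ext

universe u v w

/-- Lower bound for the number `s` of terms in sums of arbitrary polynomial functions of
determinants which represent the permanent, exactly or approximately, over fields of characteristic
different from two; and the statement that one term with `L = 1`, `R = n ^ 2` suffices for every
polynomial. -/
theorem result :
    (∀ {O : Type u} {K : Type v} {F : Type w} [CommRing O] [Field K] [Field F]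
      (ι : O →+* K) (res : O →+* F), Function.Injective ι → (2 : F) ≠ 0 → ∀ (n s : ℕ), 0 < n →
      ∀ (p : Fin s → MvPolynomial (Fin n × Fin n) K) (δ L R : Fin s → ℕ),
      (∀ i, DetFunction (δ i) (L i) (R i) (p i)) → PolyRepPer ι res (∑ i, p i) →
      (∀ D k : ℕ, Even D → D * k ≤ n → D ^ k * (n + 1 - 2 * k) ^ (2 * k) ≤
        ∑ i, (min (δ i) k * (min (δ i) k + 1) * (2 * R i * max n (2 * L i))) ^ k) ∧
      (∀ k L0 R0 : ℕ, (∀ i, L i ≤ L0) → (∀ i, R i ≤ R0) → 0 < R0 →
        64 * k ^ 3 * R0 * max n (2 * L0) ≤ n ^ 3 → 2 ^ k ≤ s)) ∧
    (∀ {K : Type v} [CommRing K] [Nontrivial K] (n : ℕ),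
      RowLineDet n (Matrix.of fun i j => (X (i, j) : MvPolynomial (Fin n × Fin n) K)).det ∧
      ∀ p : MvPolynomial (Fin n × Fin n) K, DetFunction p.totalDegree 1 (n ^ 2) p) := by
  refine ⟨?_, fun n => ⟨rowLineDet_det, detFunction_all⟩⟩
  intro O K F _ _ _ ι res hι hF n s hn p δ L R hp hrep
  have hmain : ∀ D k : ℕ, Even D → D * k ≤ n → D ^ k * n.descFactorial (2 * k) ≤
      ∑ i, (min (δ i) k * (min (δ i) k + 1) * (2 * R i * max n (2 * L i))) ^ k := by
    intro D k hD hk
    rcases Nat.eq_zero_or_pos D with h0 | h0
    · subst h0
      rcases Nat.eq_zero_or_pos k with h1 | h1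
      · subst h1
        have := comp_lower (k := 0) (h := 0) ι hι res hF (by omega) p δ L R hp hrep
        simpa using this
      · rw [zero_pow (by omega), zero_mul]
        exact Nat.zero_le _
    · obtain ⟨m, hm⟩ := hD
      obtain ⟨h, rfl⟩ : ∃ h, D = 2 * (h + 1) := ⟨m - 1, by omega⟩
      exact comp_lower ι hι res hF hk p δ L R hp hrep
  refine ⟨fun D k hD hk => ?_, fun k L0 R0 hL0 hR0 hR h64 => ?_⟩
  · exact (Nat.mul_le_mul_left _ (Nat.pow_sub_le_descFactorial n (2 * k))).trans (hmain D k hD hk)
  · refine final_arithC hn (le_max_left n (2 * L0)) hR h64 fun D k hD hk =>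
      (hmain D k hD hk).trans ?_
    calc ∑ i, (min (δ i) k * (min (δ i) k + 1) * (2 * R i * max n (2 * L i))) ^ k
        ≤ ∑ _i : Fin s, (k * (k + 1) * (2 * R0 * max n (2 * L0))) ^ k := by
          refine Finset.sum_le_sum fun i _ => Nat.pow_le_pow_left ?_ _
          refine Nat.mul_le_mul (Nat.mul_le_mul (min_le_right _ _)
            (Nat.add_le_add_right (min_le_right _ _) 1)) (Nat.mul_le_mul
              (Nat.mul_le_mul_left 2 (hR0 i)) (max_le_max le_rfl (Nat.mul_le_mul_left 2 (hL0 i))))
      _ = s * (k * (k + 1) * (2 * R0 * max n (2 * L0))) ^ k := by simp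

end Pool.Agent.Results.MP_9ce8c8_lc.FunctionsOfDeterminants
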