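import Pool.Agent.W966.Vp.Vnp

set_option autoImplicit false

/-!
# The closure of VP consists of the limits of nondeterministically decidable p-families

Definitions: `LF`, `NTree`, `NTree.Acc`, `NTree.Accepts` are in `Pool.Agent.W966.Vg.Defs`;
`PolyBounded`, `LimitOf`, `Computable`, `DecidesGraph`, `DecidesZeros`, `ChecksValues`,
`TestsZeros`, `ApproxComputable` are in `Pool.Agent.W966.Vp.Main`, `PFamily`, `InVNP` in
`Pool.Agent.W966.Vp.Vnp`.
-/

namespace Pool.Agent.Results.MP_9ce8c8_lc.NondeterministicLimits

open MvPolynomial Pool.Agent.W966.Vg Pool.Agent.W966.Vp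

/-- Let `K` be an algebraically closed field of characteristic `0`.

For a p-family `f` the following are equivalent:
* `f` is approximatively p-computable (`f n` is in the Zariski closure of the polynomials computed
  with polynomially many operations);
* `f n` is in the Zariski closure of the polynomials `g` of polynomially bounded degree for which a
  nondeterministic algebraic computation tree decides whether `y = g x` with polynomially many
  multiplications and divisions (additions, guesses, tests and choices are free);
* the same with `g x = 0` in place of `y = g x`.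

It is enough that the trees check values in a weak sense (for a dense set of `x`, the pair
`(x, g x)` and boundedly many pairs `(x, y)` are accepted) or test for zeros in a weak sense
(almost all zeros of `g`, and only zeros of some polynomial `h ≠ 0`, are accepted).

In particular `VNP` is contained in the class of approximatively p-computable families if and only
if every family in `VNP` is such a limit of families with decidable zero sets. -/
theorem result {K : Type} [Field K] [IsAlgClosed K] [CharZero K] :
    (∀ (v : ℕ → ℕ) (f : ∀ n, MvPolynomial (Fin (v n)) K), PFamily f →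
      (ApproxComputable f ↔ ∃ s, PolyBounded s ∧ ∀ n,
        LimitOf {g | g.totalDegree ≤ s n ∧ DecidesGraph (s n) g} (f n)) ∧
      (ApproxComputable f ↔ ∃ s, PolyBounded s ∧ ∀ n,
        LimitOf {g | g.totalDegree ≤ s n ∧ DecidesZeros (s n) g} (f n)) ∧
      ((∃ s, PolyBounded s ∧ ∀ n,
        LimitOf {g | g.totalDegree ≤ s n ∧ (ChecksValues (s n) g ∨ TestsZeros (s n) g)} (f n)) →
        ApproxComputable f)) ∧
    ((∀ (v : ℕ → ℕ) (f : ∀ n, MvPolynomial (Fin (v n)) K), InVNP f → ApproxComputable f) ↔
      ∀ (v : ℕ → ℕ) (f : ∀ n, MvPolynomial (Fin (v n)) K), InVNP f → ∃ s, PolyBounded s ∧ ∀ n,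
        LimitOf {g | g.totalDegree ≤ s n ∧ DecidesZeros (s n) g} (f n)) :=
  ⟨fun _ f hf => main hf.1 f hf.2, vnp_iff⟩

end Pool.Agent.Results.MP_9ce8c8_lc.NondeterministicLimits
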