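import Mathlib
import Pool.Agent.W940.R10

/-!
# Approximate circuits for the permanent: size against the variables of the shared gates

`Circuit` (in `Pool.Agent.H567.Nec.CircuitDef`): acyclic circuits with gates `+` and `×` of fan-in
two, any fan-out; `size` is the number of gates, `value` the polynomial at a node.
`outDegree Φ x` is the number of edges leaving the node `x`, `numVars Φ x` the number of variables
which occur in the polynomial at `x`, and `sharedWeight Φ` the sum of `numVars Φ x` over all edges,
`x` being the origin of the edge, except for the edges leaving a gate which is used only once.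
-/

set_option autoImplicit false

namespace Pool.Agent.Results.MP_9ce8c8_lc.SharedGateVariables

open MvPolynomial Pool.Agent.H567.Nec Pool.Agent.W940.R

universe u

/-- Let `k` be a field of characteristic zero and let `g ≠ 0` be a polynomial over `k` in the
entries of an `m × m` matrix which vanishes at all matrices over `k` with permanent zero (for
example the permanent or a nonzero multiple of it, of any degree). Let a circuit over `k(ε)`
(`RatFunc k`) compute a polynomial which tends to `g` as `ε` tends to `0`. Then the weight of its
shared nodes is at least `(1/8 - o(1)) m ^ 4 / log₂ m`. Hence, if the gates which are used at least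
twice compute polynomials in at most `D` variables each, then the circuit has at least
`(1/16 - o(1)) m ^ 4 / (D log₂ m)` gates. -/
theorem result {k : Type u} [Field k] [CharZero k] (m : ℕ)
    (g : MvPolynomial (Fin m × Fin m) k) (hg : g ≠ 0)
    (hv : ∀ X : Matrix (Fin m) (Fin m) k, X.permanent = 0 → eval (fun p => X p.1 p.2) g = 0)
    (Φ : Circuit (RatFunc k) (Fin m × Fin m)) (o : Fin Φ.N)
    (hF : ∀ d : Fin m × Fin m →₀ ℕ, ((Φ.value o).coeff d).denom.eval 0 ≠ 0 ∧
      RatFunc.eval (RingHom.id k) 0 ((Φ.value o).coeff d) = g.coeff d) :
    m * (m - 2 * Nat.clog 2 m) * ((m - 2 * Nat.clog 2 m) ^ 2 - 2)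
      ≤ 8 * Nat.clog 2 m * sharedWeight Φ ∧
    ∀ D : ℕ, 1 ≤ D → (∀ x, (Φ.node x).IsGate → 2 ≤ outDegree Φ x → numVars Φ x ≤ D) →
      m * (m - 2 * Nat.clog 2 m) * ((m - 2 * Nat.clog 2 m) ^ 2 - 2)
        ≤ 16 * Nat.clog 2 m * (D * Φ.size) :=
  shared_bound m g hg hv Φ o hF

end Pool.Agent.Results.MP_9ce8c8_lc.SharedGateVariables
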